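import Pool.Agent.X258.TPS.Main

/-!
# MP_037b14_pr: monotone strategies do not suffice in the tipsy cop and robber game
-/

namespace Pool.Agent.Results.MP_037b14_pr.MustRetreat

open Pool.Agent.X258.TPS

/-- There are a connected locally finite graph and a starting position for which, with the
parameters `c = 4/9`, `r = 0`, `t_c = 5/9`, `t_r = 0`, the cop has a winning strategy but no
monotone winning strategy. -/
theorem result : ∃ (V : Type) (G : SimpleGraph V) (_ : G.LocallyFinite) (u v : V),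
    G.Connected ∧
    (∃ cs, IsCop G cs ∧ Winning G (4 / 9) 0 (5 / 9) 0 cs u v) ∧
    ¬ ∃ cs, IsCop G cs ∧ MonotoneCop G cs ∧ Winning G (4 / 9) 0 (5 / 9) 0 cs u v := by
  refine ⟨Vx, Ex, inferInstance, Vx.A 0 ⟨0, K_pos 0⟩, Vx.B 0, connected_Ex,
    ⟨fun _ u _ => S0 u, S0_cop, S0_winning _⟩, ?_⟩
  rintro ⟨cs, hcs, hmon, hwin⟩
  exact not_monotone_winning cs hcs hmon _ hwin

end Pool.Agent.Results.MP_037b14_pr.MustRetreat
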